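import Pool.Agent.H417R2.StripD
import Pool.Agent.NPC.Dec

/-!
# Deciding common strip partitions of strings is NP-hard
-/

namespace Pool.Agent.Results.MP_cb2135_lc.CommonStripHard

open Pool.Agent.NPC

/-- Balanced strings: every letter occurs the same number of times in both. -/
def Balanced (S T : List ℕ) : Prop := ∀ a : ℕ, S.count a = T.count a

/-- A strip partition of a string: a factorisation into blocks of length at least two. -/
def StripPartition (B : List (List ℕ)) (S : List ℕ) : Prop :=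
  B.flatten = S ∧ ∀ b ∈ B, 2 ≤ b.length

/-- The strings `S`, `T` admit a common strip partition: strip partitions of `S` and `T` into the
same blocks up to a permutation. -/
def CommonStripPartition (S T : List ℕ) : Prop :=
  ∃ B C : List (List ℕ), StripPartition B S ∧ StripPartition C T ∧ B.Perm C

/-- Complementary maximal strip recovery on strings: subsequences of both strings, the first one
missing at most `k` letters, that admit a common strip partition. -/
def CMSR (G₁ G₂ : List ℕ) (k : ℕ) : Prop :=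
  ∃ H₁ H₂ : List ℕ, H₁.Sublist G₁ ∧ H₂.Sublist G₂ ∧ G₁.length - H₁.length ≤ k ∧
    CommonStripPartition H₁ H₂

theorem csp_iff (S T : List ℕ) : CommonStripPartition S T ↔ H417R2.Strip.CSP S T := by
  constructor
  · rintro ⟨B, C, ⟨h1, h2⟩, ⟨h3, h4⟩, h5⟩
    exact ⟨B, C, h1, h3, h2, h4, h5⟩
  · rintro ⟨B, C, h1, h3, h2, h4, h5⟩
    exact ⟨B, C, ⟨h1, h2⟩, ⟨h3, h4⟩, h5⟩

theorem balanced_iff (S T : List ℕ) : Balanced S T ↔ S.Perm T := List.perm_iff_count.symm

theorem cmsr_zero {S T : List ℕ} (h : Balanced S T) : CMSR S T 0 ↔ CommonStripPartition S T := by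
  have hp := (balanced_iff S T).1 h
  constructor
  · rintro ⟨S', T', h1, h2, h3, h4⟩
    have e1 : S' = S := h1.eq_of_length_le (by omega)
    subst e1
    have h5 : S'.Perm T' := H417R2.Strip.CSP.perm ((csp_iff _ _).1 h4)
    have e2 : T' = T := h2.eq_of_length_le (by rw [← h5.length_eq, ← hp.length_eq])
    subst e2
    exact h4
  · intro h
    exact ⟨S, T, List.Sublist.refl _, List.Sublist.refl _, by simp, h⟩

/-- Hardness of the promise problem. -/
theorem hardPr : HardPr (fun p : List ℕ × List ℕ => Balanced p.1 p.2)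
    (fun p : List ℕ × List ℕ => CommonStripPartition p.1 p.2) :=
  hardPr_SAT3b.trans Strip.poly_red
    (fun φ _ => (balanced_iff _ _).2 (H417R2.Strip.red_balanced φ))
    (fun φ h => (H417R2.Strip.red_iff φ h.2.1).trans (csp_iff _ _).symm)

theorem result :
    (∀ L : Set (List Bool), InNP L → ∃ f : List Bool → List ℕ × List ℕ,
      PolyTime (fun x => bits (f x)) ∧ ∀ x, Balanced (f x).1 (f x).2 ∧
        (x ∈ L ↔ CommonStripPartition (f x).1 (f x).2) ∧ (x ∈ L ↔ CMSR (f x).1 (f x).2 0)) ∧
    NPHardP (fun p : List ℕ × List ℕ => Balanced p.1 p.2 ∧ CommonStripPartition p.1 p.2) ∧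
    ∀ D : List Bool → List Bool, PolyTime D →
      (∀ S T : List ℕ, Balanced S T → (D (bits (S, T)) = [true] ↔ CommonStripPartition S T)) →
      ∀ L : Set (List Bool), InNP L → InP L := by
  have key : ∀ L : Set (List Bool), InNP L → ∃ f : List Bool → List ℕ × List ℕ,
      PolyTime (fun x => bits (f x)) ∧ ∀ x, Balanced (f x).1 (f x).2 ∧
        (x ∈ L ↔ CommonStripPartition (f x).1 (f x).2) ∧ (x ∈ L ↔ CMSR (f x).1 (f x).2 0) := by
    intro L hL
    obtain ⟨f, hf, h1, h2⟩ := hardPr L hL
    exact ⟨f, PC.toPolyTime hf, fun x => ⟨h1 x, h2 x, (h2 x).trans (cmsr_zero (h1 x)).symm⟩⟩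
  refine ⟨key, ?_, ?_⟩
  · intro L hL
    obtain ⟨f, hf, h⟩ := key L hL
    refine ⟨fun x => bits (f x), hf, fun x => ?_⟩
    rw [bits_mem_lang, (h x).2.1]
    exact ⟨fun h' => ⟨(h x).1, h'⟩, fun h' => h'.2⟩
  · intro D hD hDc L hL
    obtain ⟨f, hf, h⟩ := key L hL
    refine ⟨fun x => D (bits (f x)), Pool.Agent.H642R2.TMSim.polyTime_comp hD hf, fun x => ?_⟩
    rw [(h x).2.1]
    exact (hDc _ _ (h x).1).symm

end Pool.Agent.Results.MP_cb2135_lc.CommonStripHard
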